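import Pool.Agent.TH937.FF4.Defs
set_option autoImplicit false
namespace Pool.Agent.TH937.FF4
open Set Filter Topology
open Pool.Agent.TH937.ZC (QL RCc)
open scoped ComplexConjugate

/-- a function whose derivative is at least `K x` where it is negative stays nonnegative -/
theorem phase_gron {x x' : ℝ → ℝ} {a b K : ℝ}
    (hx : ∀ s ∈ Icc a b, HasDerivWithinAt x (x' s) (Icc a b) s)
    (hK : ∀ s ∈ Icc a b, x s < 0 → K * x s ≤ x' s) (h0 : 0 ≤ x a) : ∀ s ∈ Icc a b, 0 ≤ x s := by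
  intro s1 hs1
  by_contra hneg
  rw [not_le] at hneg
  have hcx : ContinuousOn x (Icc a b) := fun s hs => (hx s hs).continuousWithinAt
  have hsub : Icc a s1 ⊆ Icc a b := Icc_subset_Icc_right hs1.2
  have hcx1 : ContinuousOn x (Icc a s1) := hcx.mono hsub
  have hcl : IsClosed (Icc a s1 ∩ x ⁻¹' Ici 0) :=
    hcx1.preimage_isClosed_of_isClosed isClosed_Icc isClosed_Ici
  have hcomp : IsCompact (Icc a s1 ∩ x ⁻¹' Ici 0) :=
    isCompact_Icc.of_isClosed_subset hcl inter_subset_left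
  have hne : (Icc a s1 ∩ x ⁻¹' Ici 0).Nonempty := ⟨a, ⟨le_rfl, hs1.1⟩, h0⟩
  obtain ⟨hm, hx2⟩ := hcomp.sSup_mem hne
  set s2 := sSup (Icc a s1 ∩ x ⁻¹' Ici 0) with hs2
  have hx2' : 0 ≤ x s2 := hx2
  have hlt : ∀ s ∈ Ioc s2 s1, x s < 0 := by
    intro s hs
    by_contra hc
    rw [not_lt] at hc
    have : s ≤ s2 := le_csSup hcomp.bddAbove ⟨⟨hm.1.trans hs.1.le, hs.2⟩, hc⟩
    exact absurd hs.1 (not_lt.2 this)
  have h12 : s2 < s1 := by
    rcases hm.2.eq_or_lt with h | h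
    · rw [h] at hx2'; exact absurd hneg (not_lt.2 hx2')
    · exact h
  -- the function `x e^{-K s}` is monotone on `[s2, s1]`
  have hmono : MonotoneOn (fun s => x s * Real.exp (-K * s)) (Icc s2 s1) := by
    have hsub2 : Icc s2 s1 ⊆ Icc a b := (Icc_subset_Icc_left hm.1).trans hsub
    have hder : ∀ s ∈ Ioo s2 s1, HasDerivAt (fun s => x s * Real.exp (-K * s))
        (x' s * Real.exp (-K * s) + x s * (Real.exp (-K * s) * (-K * 1))) s := by
      intro s hs
      have h1 : HasDerivAt x (x' s) s :=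
        (hx s (hsub2 ⟨hs.1.le, hs.2.le⟩)).hasDerivAt
          (Icc_mem_nhds (lt_of_le_of_lt hm.1 hs.1) (lt_of_lt_of_le hs.2 hs1.2))
      exact h1.mul (((hasDerivAt_id s).const_mul (-K)).exp)
    apply monotoneOn_of_deriv_nonneg (convex_Icc s2 s1)
    · exact (hcx.mono hsub2).mul (by fun_prop)
    · rw [interior_Icc]
      exact fun s hs => (hder s hs).differentiableAt.differentiableWithinAt
    · rw [interior_Icc]
      intro s hs
      rw [(hder s hs).deriv]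
      have h2 := hK s (hsub2 ⟨hs.1.le, hs.2.le⟩) (hlt s ⟨hs.1, hs.2.le⟩)
      have h3 : x' s * Real.exp (-K * s) + x s * (Real.exp (-K * s) * (-K * 1)) =
          (x' s - K * x s) * Real.exp (-K * s) := by ring
      rw [h3]
      exact mul_nonneg (by linarith) (Real.exp_pos _).le
  have h4 := hmono (left_mem_Icc.2 h12.le) (right_mem_Icc.2 h12.le) h12.le
  simp only at h4
  have h5 : 0 ≤ x s2 * Real.exp (-K * s2) := mul_nonneg hx2' (Real.exp_pos _).le
  have h6 : x s1 * Real.exp (-K * s1) < 0 := mul_neg_of_neg_of_pos hneg (Real.exp_pos _)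
  linarith

theorem phase_X (D : Da) (s v : ℝ) : D.X s v =
    (D.a v + D.b1 v - v * D.a1 v) + (D.h1 s + D.c s - s * D.c1 s) := by
  simp only [Da.X, Da.gs, Da.gv, Da.gsv]
  ring

theorem phase {D : Da} {η : ℝ} (hD : Reg D) (hc : Cn D η) (hη : 0 < η) {s0 v0 S : ℝ}
    {γ : ℝ → ℝ} (hγ : Cv D s0 v0 S γ) : ∃ sb ∈ Icc s0 S,
      (∀ s ∈ Ico s0 sb, D.X s (γ s) ≤ 0) ∧
      (∀ s ∈ Ioc sb S, γ s = γ sb ∧ 0 ≤ D.X s (γ s)) ∧
      AntitoneOn γ (Icc s0 S) ∧
      (∀ v, γ S ≤ v → v ≤ v0 → γ S < v0 → D.X s0 v ≤ 0) := by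
  have hs0 : 0 < s0 := hγ.v0pos.trans hγ.hv
  have hxi : ∀ v, HasDerivAt (fun v => D.a v + D.b1 v - v * D.a1 v)
      (D.b2 v - v * D.a2 v) v := by
    intro v
    have h := ((hD.a1 v).add (hD.b2 v)).sub ((hasDerivAt_id v).mul (hD.a2 v))
    refine h.congr_deriv ?_
    simp only [id]
    ring
  have hze : ∀ s, 0 < s → HasDerivAt (fun s => D.h1 s + D.c s - s * D.c1 s)
      (D.h2 s - s * D.c2 s) s := by
    intro s _
    have h := ((hD.h2 s).add (hD.c1 s)).sub ((hasDerivAt_id s).mul (hD.c2 s))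
    refine h.congr_deriv ?_
    simp only [id]
    ring
  have hze0 : ∀ s, 0 < s → 0 ≤ D.h2 s - s * D.c2 s := by
    intro s hs
    have h := hc.ss s (-s) (by rw [abs_neg, abs_of_pos hs]) hs
    simp only [Da.gss] at h
    linarith
  -- monotone in `s`
  have hmonoX : ∀ v s t, 0 < s → s ≤ t → D.X s v ≤ D.X t v := by
    intro v s t hs hst
    have hmono : MonotoneOn (fun s => D.h1 s + D.c s - s * D.c1 s) (Icc s t) := by
      apply monotoneOn_of_deriv_nonneg (convex_Icc s t)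
      · exact fun r hr => (hze r (hs.trans_le hr.1)).continuousAt.continuousWithinAt
      · rw [interior_Icc]
        exact fun r hr => (hze r (hs.trans hr.1)).differentiableAt.differentiableWithinAt
      · rw [interior_Icc]
        intro r hr
        rw [(hze r (hs.trans hr.1)).deriv]
        exact hze0 r (hs.trans hr.1)
    have h := hmono (left_mem_Icc.2 hst) (right_mem_Icc.2 hst) hst
    simp only at h
    rw [phase_X, phase_X]
    linarith
  have hpos : ∀ s ∈ Icc s0 S, 0 < s := fun s hs => hs0.trans_le hs.1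
  have hgp : ∀ s ∈ Icc s0 S, 0 ≤ γ s := fun s hs => (hγ.bd s hs).1
  have hgle : ∀ s ∈ Icc s0 S, γ s ≤ s := fun s hs =>
    ((hγ.bd s hs).2.trans hγ.hv.le).trans hs.1
  have hvv : ∀ s ∈ Icc s0 S, η ≤ D.gvv s (γ s) := fun s hs =>
    hc.vv s (γ s) (by rw [abs_of_nonneg (hgp s hs)]; exact hgle s hs) (hpos s hs)
  have hden : ∀ s ∈ Icc s0 S, s0 * η ≤ (s + γ s) * D.gvv s (γ s) := fun s hs => by
    have h1 : s0 ≤ s + γ s := by linarith [hs.1, hgp s hs]
    exact mul_le_mul h1 (hvv s hs) hη.le (by linarith)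
  have hs0η : 0 < s0 * η := mul_pos hs0 hη
  have hfm0 : ∀ s ∈ Icc s0 S, D.fm s (γ s) ≤ 0 := fun s hs => by
    unfold Da.fm
    exact div_nonpos_of_nonpos_of_nonneg (min_le_right _ _) (hs0η.le.trans (hden s hs))
  have hcg : ContinuousOn γ (Icc s0 S) := fun s hs => (hγ.de s hs).continuousWithinAt
  have hanti : AntitoneOn γ (Icc s0 S) := by
    apply antitoneOn_of_deriv_nonpos (convex_Icc s0 S) hcg
    · rw [interior_Icc]
      exact fun s hs => ((hγ.de s ⟨hs.1.le, hs.2.le⟩).hasDerivAt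
        (Icc_mem_nhds hs.1 hs.2)).differentiableAt.differentiableWithinAt
    · rw [interior_Icc]
      intro s hs
      rw [((hγ.de s ⟨hs.1.le, hs.2.le⟩).hasDerivAt (Icc_mem_nhds hs.1 hs.2)).deriv]
      exact hfm0 s ⟨hs.1.le, hs.2.le⟩
  -- the function `X` along the curve
  have hxd : ∀ s ∈ Icc s0 S, HasDerivWithinAt (fun s => D.X s (γ s))
      ((D.b2 (γ s) - γ s * D.a2 (γ s)) * D.fm s (γ s) + (D.h2 s - s * D.c2 s)) (Icc s0 S) s := by
    intro s hs
    have h1 := (hxi (γ s)).comp_hasDerivWithinAt s (hγ.de s hs)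
    have h2 := (hze s (hpos s hs)).hasDerivWithinAt (s := Icc s0 S)
    have h3 := h1.add h2
    refine h3.congr (fun t _ => ?_) ?_
    · rw [phase_X]; rfl
    · rw [phase_X]; rfl
  have hxc : ContinuousOn (fun s => D.X s (γ s)) (Icc s0 S) :=
    fun s hs => (hxd s hs).continuousWithinAt
  -- the bound of the derivative of `xi`
  obtain ⟨B, hB0, hB⟩ : ∃ B : ℝ, 0 ≤ B ∧ ∀ v, 0 ≤ v → v ≤ v0 → |D.b2 v - v * D.a2 v| ≤ B := by
    obtain ⟨La, hLa⟩ := hD.la v0
    obtain ⟨Lb, hLb⟩ := hD.lb v0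
    have hv0 := hγ.v0pos
    refine ⟨(|D.b2 0| + |Lb| * v0) + v0 * (|D.a2 0| + |La| * v0), by positivity, ?_⟩
    intro v hv1 hv2
    have e1 : |D.b2 v| ≤ |D.b2 0| + |Lb| * v0 := by
      have h := hLb v 0 (by rw [abs_of_nonneg hv1]; exact hv2) (by rw [abs_zero]; exact hv0.le)
      have h' : |D.b2 v| ≤ |D.b2 v - D.b2 0| + |D.b2 0| := by
        have := abs_add_le (D.b2 v - D.b2 0) (D.b2 0)
        simpa using this
      have h'' : Lb * |v - 0| ≤ |Lb| * v0 := by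
        rw [sub_zero, abs_of_nonneg hv1]
        exact mul_le_mul (le_abs_self _) hv2 hv1 (abs_nonneg _)
      linarith
    have e2 : |D.a2 v| ≤ |D.a2 0| + |La| * v0 := by
      have h := hLa v 0 (by rw [abs_of_nonneg hv1]; exact hv2) (by rw [abs_zero]; exact hv0.le)
      have h' : |D.a2 v| ≤ |D.a2 v - D.a2 0| + |D.a2 0| := by
        have := abs_add_le (D.a2 v - D.a2 0) (D.a2 0)
        simpa using this
      have h'' : La * |v - 0| ≤ |La| * v0 := by
        rw [sub_zero, abs_of_nonneg hv1]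
        exact mul_le_mul (le_abs_self _) hv2 hv1 (abs_nonneg _)
      linarith
    have e3 : |v * D.a2 v| ≤ v0 * (|D.a2 0| + |La| * v0) := by
      rw [abs_mul, abs_of_nonneg hv1]
      exact mul_le_mul hv2 e2 (abs_nonneg _) hv0.le
    have e4 := abs_sub (D.b2 v) (v * D.a2 v)
    linarith
  have hkey : ∀ s' ∈ Icc s0 S, 0 ≤ D.X s' (γ s') → ∀ s ∈ Icc s' S, 0 ≤ D.X s (γ s) := by
    intro s' hs' h0
    have hsub : Icc s' S ⊆ Icc s0 S := Icc_subset_Icc_left hs'.1
    apply phase_gron (K := B / (s0 * η)) (x := fun s => D.X s (γ s))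
      (x' := fun s => (D.b2 (γ s) - γ s * D.a2 (γ s)) * D.fm s (γ s) + (D.h2 s - s * D.c2 s))
    · exact fun s hs => (hxd s (hsub hs)).mono hsub
    · intro s hs hneg
      have h1 := hB (γ s) (hγ.bd s (hsub hs)).1 (hγ.bd s (hsub hs)).2
      have h2 := hden s (hsub hs)
      have h3 := hze0 s (hpos s (hsub hs))
      have h4 : D.fm s (γ s) = D.X s (γ s) / ((s + γ s) * D.gvv s (γ s)) := by
        unfold Da.fm
        rw [min_eq_left hneg.le]
      set den := (s + γ s) * D.gvv s (γ s) with hdn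
      have hdp : 0 < den := hs0η.trans_le h2
      have h5 : |D.fm s (γ s)| ≤ -D.X s (γ s) / (s0 * η) := by
        rw [h4, abs_div, abs_of_neg hneg, abs_of_pos hdp]
        exact div_le_div_of_nonneg_left (by linarith) hs0η h2
      have h6 : |(D.b2 (γ s) - γ s * D.a2 (γ s)) * D.fm s (γ s)| ≤ B * (-D.X s (γ s) / (s0 * η)) := by
        rw [abs_mul]
        exact mul_le_mul h1 h5 (abs_nonneg _) hB0
      have h7 := neg_abs_le ((D.b2 (γ s) - γ s * D.a2 (γ s)) * D.fm s (γ s))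
      have h8 : B * (-D.X s (γ s) / (s0 * η)) = -(B / (s0 * η) * D.X s (γ s)) := by ring
      rw [h8] at h6
      linarith
    · exact h0
  -- the point `sb`
  obtain ⟨sb, hsb, hA, hC⟩ : ∃ sb ∈ Icc s0 S, (∀ s ∈ Ico s0 sb, D.X s (γ s) ≤ 0) ∧
      ∀ s ∈ Ioc sb S, γ s = γ sb ∧ 0 ≤ D.X s (γ s) := by
    by_cases hne : (Icc s0 S ∩ (fun s => D.X s (γ s)) ⁻¹' Ici 0).Nonempty
    · have hcl : IsClosed (Icc s0 S ∩ (fun s => D.X s (γ s)) ⁻¹' Ici 0) :=
        hxc.preimage_isClosed_of_isClosed isClosed_Icc isClosed_Ici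
      have hcomp : IsCompact (Icc s0 S ∩ (fun s => D.X s (γ s)) ⁻¹' Ici 0) :=
        isCompact_Icc.of_isClosed_subset hcl inter_subset_left
      obtain ⟨hm1, hm2⟩ := hcomp.sInf_mem hne
      set sb := sInf (Icc s0 S ∩ (fun s => D.X s (γ s)) ⁻¹' Ici 0) with hsb
      have hm2' : 0 ≤ D.X sb (γ sb) := hm2
      have hX : ∀ s ∈ Icc sb S, 0 ≤ D.X s (γ s) := hkey sb hm1 hm2'
      have hsub : Icc sb S ⊆ Icc s0 S := Icc_subset_Icc_left hm1.1
      have hconst : ∀ s ∈ Icc sb S, γ s = γ sb := by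
        apply constant_of_has_deriv_right_zero (hcg.mono hsub)
        intro s hs
        have h1 := (hγ.de s (hsub ⟨hs.1, hs.2.le⟩))
        have h2 : D.fm s (γ s) = 0 := by
          unfold Da.fm
          rw [min_eq_right (hX s ⟨hs.1, hs.2.le⟩), zero_div]
        rw [h2] at h1
        exact h1.mono_of_mem_nhdsWithin (Icc_mem_nhdsGE_of_mem ⟨hm1.1.trans hs.1, hs.2⟩)
      refine ⟨sb, hm1, ?_, ?_⟩
      · intro s hs
        by_contra hcc
        rw [not_le] at hcc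
        have : sb ≤ s := csInf_le hcomp.bddBelow ⟨⟨hs.1, hs.2.le.trans hm1.2⟩, hcc.le⟩
        exact absurd hs.2 (not_lt.2 this)
      · intro s hs
        exact ⟨hconst s ⟨hs.1.le, hs.2⟩, hX s ⟨hs.1.le, hs.2⟩⟩
    · refine ⟨S, ⟨hγ.hS.le, le_rfl⟩, ?_, ?_⟩
      · intro s hs
        by_contra hcc
        rw [not_le] at hcc
        exact hne ⟨s, ⟨hs.1, hs.2.le⟩, hcc.le⟩
      · intro s hs
        exact absurd hs.1 (not_lt.2 hs.2)
  refine ⟨sb, hsb, hA, hC, hanti, ?_⟩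
  intro v hv1 hv2 hlt
  have hgS : γ S = γ sb := by
    rcases hsb.2.eq_or_lt with h | h
    · rw [h]
    · exact (hC S ⟨h, le_rfl⟩).1
  have hsb0 : s0 < sb := by
    rcases hsb.1.eq_or_lt with h | h
    · rw [← h, hγ.ini] at hgS
      rw [hgS] at hlt
      exact absurd hlt (lt_irrefl _)
    · exact h
  have hsub : Icc s0 sb ⊆ Icc s0 S := Icc_subset_Icc_right hsb.2
  -- `X ≤ 0` on the closed interval
  have hXle : ∀ s ∈ Icc s0 sb, D.X s (γ s) ≤ 0 := by
    intro s hs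
    have hcl : IsClosed (Icc s0 sb ∩ (fun s => D.X s (γ s)) ⁻¹' Iic 0) :=
      (hxc.mono hsub).preimage_isClosed_of_isClosed isClosed_Icc isClosed_Iic
    have h1 : Ico s0 sb ⊆ Icc s0 sb ∩ (fun s => D.X s (γ s)) ⁻¹' Iic 0 :=
      fun t ht => ⟨⟨ht.1, ht.2.le⟩, hA t ht⟩
    have h2 := hcl.closure_subset_iff.2 h1
    rw [closure_Ico hsb0.ne] at h2
    exact (h2 hs).2
  obtain ⟨s, hs, hsv⟩ : v ∈ γ '' Icc s0 sb := by
    apply intermediate_value_Icc' hsb0.le (hcg.mono hsub)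
    rw [hγ.ini, ← hgS]
    exact ⟨hv1, hv2⟩
  have h1 := hXle s hs
  rw [hsv] at h1
  exact (hmonoX v s0 s hs0 hs.1).trans h1

end Pool.Agent.TH937.FF4
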